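import Pool.Agent.Lib.MP_50bb2e_nt.MT.Iface

/-! UPP: upper bound for the number of classes. -/

set_option autoImplicit false

open NumberField IsDedekindDomain Filter Topology

namespace Pool.Agent.Lib.MP_50bb2e_nt.MT.H30

open Pool.Agent.Lib.MP_50bb2e_nt.MT

theorem upp (h1 : FcnS) (h2 : KfiS) : UppS := by
  intro F _ _
  obtain ⟨hfin, C, hC, hcard⟩ := h1 F
  obtain ⟨K, hK, hfib⟩ := h2 F
  have hT : ∀ X : ℝ, {q : Quad F | (nrm (sp q) : ℝ) ≤ X}.Finite := by
    intro X
    refine ((hfin X).biUnion (t := fun s => {q : Quad F | sp q = s}) fun s _ => (hfib s).1).subset ?_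
    intro q hq
    rw [Set.mem_iUnion₂]
    exact ⟨sp q, hq, rfl⟩
  refine ⟨hT, (K : ℝ) * C, mul_pos (by exact_mod_cast hK) hC, ?_⟩
  intro X hX
  classical
  have h3 : (hT X).toFinset.card ≤ K * (hfin X).toFinset.card := by
    refine Finset.card_le_mul_card_image_of_maps_to (f := fun q => sp q) ?_ K ?_
    · intro q hq
      rw [Set.Finite.mem_toFinset] at hq ⊢
      exact hq
    · intro s _
      have h4 : (↑(Finset.filter (fun q => sp q = s) (hT X).toFinset) : Set (Quad F)) ⊆
          {q : Quad F | sp q = s} := by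
        intro q hq
        rw [Finset.mem_coe, Finset.mem_filter] at hq
        exact hq.2
      have h5 := Set.ncard_le_ncard h4 (hfib s).1
      rw [Set.ncard_coe_finset] at h5
      exact h5.trans (hfib s).2
  rw [← Set.ncard_eq_toFinset_card _ (hT X), ← Set.ncard_eq_toFinset_card _ (hfin X)] at h3
  calc (({q : Quad F | (nrm (sp q) : ℝ) ≤ X}).ncard : ℝ)
      ≤ ((K * ({s : Finset (Pr F) | (nrm s : ℝ) ≤ X}).ncard : ℕ) : ℝ) := by exact_mod_cast h3
    _ = (K : ℝ) * (({s : Finset (Pr F) | (nrm s : ℝ) ≤ X}).ncard : ℝ) := by push_cast; ring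
    _ ≤ (K : ℝ) * (C * X) := mul_le_mul_of_nonneg_left (hcard X hX) (Nat.cast_nonneg K)
    _ = (K : ℝ) * C * X := by ring

end Pool.Agent.Lib.MP_50bb2e_nt.MT.H30
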